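import Pool.Agent.TH776.FL.Main

/-!
# The Tate conjecture for all powers of an abelian variety with trivial Rosati involution and one
# Frobenius element without relations of length four

Let `A` be an abelian variety over a number field (or a finitely generated field of characteristic
zero), of any dimension, all of whose endomorphisms over the algebraic closure are fixed by the
Rosati involution of a polarization (`RosatiTrivial`): for instance `End(A) = ℤ`, or `A` is simple of
type I in the classification of Albert (the endomorphism algebra is a totally real field), or `A` is
a product of such varieties without isogenies between them. Suppose that at ONE place of good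
reduction, with residue field of `q` elements, the characteristic polynomial `P` of the Frobenius
element has no multiple roots and that complex roots `a`, `b`, `c`, `d` of `P` with
`a b c d = ζ q ^ 2`, `ζ` a root of unity, fall into two pairs with product `q`.

Then for all powers of `A` and in all codimensions all Tate classes are linear combinations of
products of Tate classes of degree two, which are classes of divisors by the theorem of Faltings. So
the Tate conjecture holds for all powers of `A`, and so do the Hodge conjecture and the conjecture
of Mumford and Tate.

There can be many multiplicative relations of length six and more between the roots of `P`, and then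
the reduction of `A` has Tate classes on its powers (of all large codimensions) which are not
generated by divisors, and the Frobenius torus is much smaller than the maximal torus of the group
of symplectic similitudes. The results in the literature and in the starting files on one Frobenius
element for all codimensions and powers generated by divisors ask that there are no relations at all
besides the products `q`. The number `4` is optimal: there are abelian varieties of dimension four
with `End(A) = ℤ` (Mumford) for which the eigenvalues of all Frobenius elements satisfy relations of
length four and Tate classes on powers are not generated by divisors.

The proof uses a theorem of the starting library (`Pool.Agent.W516.FT.tate_of_four`, helper516) on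
Tate classes of codimension `m` under the condition that nonzero symmetric Tate forms have rank
greater than `4 m`; here all symmetric Tate forms, also those with values in finite extensions of
`ℚ_ℓ`, are shown to vanish.
-/

namespace Pool.Agent.Results.MP_021685_ag.NoRelationsOfLengthFour

open Pool.Agent.H204R3.GP Pool.Agent.W516.FT Pool.Agent.TH776.FM Pool.Agent.TH776.FL

/-- The Tate conjecture for powers of an abelian variety with trivial Rosati involution, from one
Frobenius element without multiplicative relations of length four between its eigenvalues. -/
theorem result (ℓ : ℕ) [Fact ℓ.Prime] {V : Type} [AddCommGroup V] [Module ℚ_[ℓ] V]
    [FiniteDimensional ℚ_[ℓ] V] {Γ : Type} [Group Γ] (ρ : Representation ℚ_[ℓ] Γ V)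
    (χ : Γ →* ℚ_[ℓ]) (ω : V →ₗ[ℚ_[ℓ]] V →ₗ[ℚ_[ℓ]] ℚ_[ℓ]) (h : IsTateModule ρ χ ω)
    (hR : RosatiTrivial ρ ω)
    -- the Frobenius element
    (γ : Γ) (q : ℕ) (hχ : χ γ = q) (P : Polynomial ℚ) (hP : P.Separable)
    (hγ : (ρ γ).charpoly = P.map (algebraMap ℚ ℚ_[ℓ]))
    (hfour : OnlyTrivialRelationsOfLengthFour P q) : TateGeneratedInDegreeTwo ρ χ :=
  tate_of_rosati h hχ hP hγ hfour hR

end Pool.Agent.Results.MP_021685_ag.NoRelationsOfLengthFour
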