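import Mathlib
import Pool.Agent.TH116.TY.Rel

/-!
# Tate classes on the products of an abelian variety with an arbitrary variety

Let `k` be a number field (or any finitely generated field), `Γ` its Galois group, `A` an abelian
variety over `k` and `Y` an ARBITRARY smooth projective variety over `k`.  By the Künneth formula the
Tate classes of codimension `j` on `A ^ n × Y` are the families of alternating maps
`f : V ^ n × ... × V ^ n → M` in `d` variables, for `d ≤ 2 j`, with `V = V_ℓ(A)` and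
`M = H ^ (2 j - d) (Y, ℚ_ℓ(j))`, that commute with a subgroup of finite index of `Γ`.

Theorem.  Suppose that for ONE element `γ` of `Γ`, for example the Frobenius element of one place of
good reduction with residue field of `q` elements, the characteristic polynomial `P` of `γ` on
`V_ℓ(A)` has no multiple root, and that no product of `d` of its roots is equal, up to a root of
unity, to an eigenvalue of `γ` on `M`, except for the products in which each root `α` occurs as often
as `q / α`.  Then these Tate classes on `A ^ n × Y` are linear combinations of products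
`B 1 ∧ ... ∧ B m ∧ y`, `d = 2 m`, of Tate classes `B l` of degree two on `A ^ n` and of Tate classes
`y` of codimension `j - m` on `Y`; there are none if `d` is odd.  By the theorem of Faltings the
classes `B l` are classes of divisors.  So, if the condition holds for all `d ≤ 2 j`, the Tate
conjecture for `Y` in codimensions at most `j` implies the Tate conjecture in codimension `j` for all
products `A ^ n × Y`.

The condition holds (second alternative) if the reduction of `A` at the place has no exotic Tate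
classes of degree `d`, that is, only the products of `d` roots of `P` just described are equal to
`q ^ (d / 2)` up to a root of unity, and if moreover some automorphism of `ℂ` fixes all eigenvalues of
`γ` on `M` and maps every root `α` of `P` to `q / α`.  Such an automorphism exists whenever the field
generated by the Frobenius eigenvalues of `A` and the field generated by those of `Y` have a REAL
intersection; for example, if the Galois group of `P` is the full group of order `2 ^ g * g!` with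
`g` even, whenever the first field is not contained in the second.

Nothing is assumed about the semisimplicity of the representations, neither for `Y` (where it is not
known) nor for `A`, and nothing about the endomorphisms of `A` or the dimension.
-/

namespace Pool.Agent.Results.MP_021685_ag.ProductsWithAnyVariety

open Module Polynomial

/-- A subgroup of finite index acts on the bilinear alternating form `B` on `V ^ n` through the
character `χ`: a Tate class of degree two on `A ^ n`. -/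
def IsTateTwo {k V Γ : Type*} [Field k] [AddCommGroup V] [Module k V] [Group Γ]
    (ρ : Representation k Γ V) (χ : Γ →* k) {n : ℕ} (B : (Fin n → V) [⋀^Fin 2]→ₗ[k] k) : Prop :=
  ∃ Δ : Subgroup Γ, Δ.FiniteIndex ∧ ∀ s ∈ Δ, ∀ v : Fin 2 → Fin n → V,
    B (fun l i => ρ s (v l i)) = χ s * B v

/-- A subgroup of finite index multiplies the vector `y` with the `m`-th power of the character
`χ`: for `M = H ^ (2 j - 2 m) (Y, ℚ_ℓ(j))` a Tate class of codimension `j - m` on `Y`. -/
def IsTateVector {k M Γ : Type*} [Field k] [AddCommGroup M] [Module k M] [Group Γ]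
    (σ : Representation k Γ M) (χ : Γ →* k) (m : ℕ) (y : M) : Prop :=
  ∃ Δ : Subgroup Γ, Δ.FiniteIndex ∧ ∀ s ∈ Δ, σ s y = χ s ^ m • y

/-- The alternating map `f` from `V ^ n` to `M` commutes with a subgroup of finite index: a Tate
class on `A ^ n × Y`. -/
def IsTateMap {k V M Γ : Type*} [Field k] [AddCommGroup V] [Module k V] [AddCommGroup M]
    [Module k M] [Group Γ] (ρ : Representation k Γ V) (σ : Representation k Γ M) {n d : ℕ}
    (f : (Fin n → V) [⋀^Fin d]→ₗ[k] M) : Prop :=
  ∃ Δ : Subgroup Γ, Δ.FiniteIndex ∧ ∀ s ∈ Δ, ∀ v : Fin d → Fin n → V,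
    f (fun l i => ρ s (v l i)) = σ s (f v)

/-- `g` is (up to a nonzero rational factor) the product of `B 0 ∧ ... ∧ B (m - 1)` and of `y`; the
bijection `ε` numbers the `d = 2 m` variables. -/
def IsProduct {k V M : Type*} [Field k] [AddCommGroup V] [Module k V] [AddCommGroup M]
    [Module k M] {n d m : ℕ} (ε : Fin m × Fin 2 ≃ Fin d)
    (B : Fin m → (Fin n → V) [⋀^Fin 2]→ₗ[k] k) (y : M) (g : (Fin n → V) [⋀^Fin d]→ₗ[k] M) :
    Prop :=
  ∀ v, g v = (∑ τ : Equiv.Perm (Fin m × Fin 2), ((Equiv.Perm.sign τ : ℤ) : k) *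
    ∏ l, B l ![v (ε (τ (l, 0))), v (ε (τ (l, 1)))]) • y

/-- The only products of `d` complex roots of `P` that are equal, up to a root of unity, to a
complex root of `Q` are those in which every root `α` of `P` occurs as often as `q / α`. -/
def OnlyBalanced (q : ℚ) (P Q : ℚ[X]) (d : ℕ) : Prop :=
  ∀ (I : Fin d → ℂ) (β : ℂ) (N : ℕ), 0 < N → (∀ l, aeval (I l) P = 0) → aeval β Q = 0 →
    (∏ l, I l) ^ N = β ^ N →
    ∀ α : ℂ, aeval α P = 0 → Nat.card {l // I l = α} = Nat.card {l // I l * α = q}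

/-- The only products of `d` complex roots of `P` that are equal to `q ^ (d / 2)` up to a root of
unity are those in which every root `α` of `P` occurs as often as `q / α`. -/
def NoExotic (q : ℚ) (P : ℚ[X]) (d : ℕ) : Prop :=
  ∀ (I : Fin d → ℂ) (N : ℕ), 0 < N → (∀ l, aeval (I l) P = 0) →
    (∏ l, I l) ^ (2 * N) = (q : ℂ) ^ (d * N) →
    ∀ α : ℂ, aeval α P = 0 → Nat.card {l // I l = α} = Nat.card {l // I l * α = q}

theorem result {ℓ : ℕ} [Fact ℓ.Prime] {V M Γ : Type} [AddCommGroup V] [Module ℚ_[ℓ] V]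
    [FiniteDimensional ℚ_[ℓ] V] [AddCommGroup M] [Module ℚ_[ℓ] M] [FiniteDimensional ℚ_[ℓ] M]
    [Group Γ] (ρ : Representation ℚ_[ℓ] Γ V) (σ : Representation ℚ_[ℓ] Γ M) (χ : Γ →* ℚ_[ℓ])
    (ω : V →ₗ[ℚ_[ℓ]] V →ₗ[ℚ_[ℓ]] ℚ_[ℓ]) (halt : ∀ v, ω v v = 0)
    (hnondeg : ∀ u, (∀ v, ω v u = 0) → u = 0)
    (hω : ∀ s u v, ω (ρ s u) (ρ s v) = χ s * ω u v)
    (γ : Γ) (q : ℚ) (hq : χ γ = q) (P Q : ℚ[X])
    (hP : (ρ γ).charpoly = P.map (algebraMap ℚ ℚ_[ℓ]))
    (hQ : (σ γ).charpoly = Q.map (algebraMap ℚ ℚ_[ℓ])) (hsep : P.Separable) (d : ℕ)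
    (hrel : OnlyBalanced q P Q d ∨ (NoExotic q P d ∧ ∃ τ : ℂ ≃+* ℂ,
      (∀ β, aeval β Q = 0 → τ β = β) ∧ ∀ α, aeval α P = 0 → τ α = q / α))
    (n : ℕ) (f : (Fin n → V) [⋀^Fin d]→ₗ[ℚ_[ℓ]] M) (hf : IsTateMap ρ σ f) :
    f ∈ Submodule.span ℚ_[ℓ] {g : (Fin n → V) [⋀^Fin d]→ₗ[ℚ_[ℓ]] M |
      ∃ (m : ℕ) (ε : Fin m × Fin 2 ≃ Fin d) (B : Fin m → (Fin n → V) [⋀^Fin 2]→ₗ[ℚ_[ℓ]] ℚ_[ℓ])
        (y : M), (∀ l, IsTateTwo ρ χ (B l)) ∧ IsTateVector σ χ m y ∧ IsProduct ε B y g} := by
  classical
  have hP00 : aeval (0 : ℂ) P ≠ 0 := by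
    intro h0
    have h1 : P.eval 0 = 0 := by
      have h2 : aeval (0 : ℂ) P = algebraMap ℚ ℂ (P.eval 0) := by
        rw [← map_zero (algebraMap ℚ ℂ), aeval_algebraMap_apply, coe_aeval_eq_eval]
      rw [h2] at h0
      exact (map_eq_zero (algebraMap ℚ ℂ)).1 h0
    have h2 : (ρ γ).charpoly.IsRoot 0 := by
      rw [hP, IsRoot, eval_map, ← aeval_def, ← map_zero (algebraMap ℚ ℚ_[ℓ]),
        aeval_algebraMap_apply, coe_aeval_eq_eval, h1]
    rw [← Module.End.hasEigenvalue_iff_isRoot_charpoly] at h2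
    obtain ⟨v, hv⟩ := h2.exists_hasEigenvector
    have h3 := hv.apply_eq_smul
    rw [zero_smul] at h3
    apply hv.2
    have h4 : ρ γ⁻¹ (ρ γ v) = v := by
      rw [← Module.End.mul_apply, ← map_mul, inv_mul_cancel, map_one]
      rfl
    rw [← h4, h3, map_zero]
  have hrel' : TH116.TY.OnlyBalanced q P Q d := by
    rcases hrel with h | ⟨h, τ, hτ1, hτ2⟩
    · exact h
    · exact TH116.TY.onlyBalanced_of_conj hP00 h τ hτ1 hτ2
  have hP0 : P ≠ 0 := by
    rintro rfl
    rw [Polynomial.map_zero] at hP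
    exact (LinearMap.charpoly_monic (ρ γ)).ne_zero hP
  have hQ0 : Q ≠ 0 := by
    rintro rfl
    rw [Polynomial.map_zero] at hQ
    exact (LinearMap.charpoly_monic (σ γ)).ne_zero hQ
  have hsep' : (ρ γ).charpoly.Separable := by
    rw [hP]
    exact hsep.map
  have hind : ∀ (κ : Type) [Fintype κ], Fintype.card κ = d →
      TH116.TY.Indep κ (algebraMap ℚ_[ℓ] (AlgebraicClosure ℚ_[ℓ]) (χ γ))
        ((ρ γ).charpoly.map (algebraMap ℚ_[ℓ] (AlgebraicClosure ℚ_[ℓ])))
        ((σ γ).charpoly.map (algebraMap ℚ_[ℓ] (AlgebraicClosure ℚ_[ℓ]))) := by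
    intro κ _ hκ
    have h1 := TH116.TY.indep_of_complex (K := AlgebraicClosure ℚ_[ℓ]) κ hκ hP0 hQ0 hrel'
    rw [hP, hQ, Polynomial.map_map, Polynomial.map_map, hq]
    convert h1 using 1
    · rw [map_ratCast, eq_ratCast]
    · congr 1
    · congr 1
  rcases Nat.even_or_odd' d with ⟨m, hd | hd⟩
  · have hcard : Fintype.card (Fin m × Fin 2) = d := by
      rw [Fintype.card_prod, Fintype.card_fin, Fintype.card_fin, hd, mul_comm]
    let ε : Fin m × Fin 2 ≃ Fin d := Fintype.equivFinOfCardEq hcard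
    let f' : (Fin n → V) [⋀^Fin m × Fin 2]→ₗ[ℚ_[ℓ]] M := f.domDomCongr ε.symm
    have hf' : TH116.TY.IsEqvAlt ρ σ f' := by
      obtain ⟨Δ, hΔ, h⟩ := hf
      exact ⟨Δ, hΔ, fun s hs v => h s hs (fun l => v (ε.symm l))⟩
    have h1 := TH116.TY.alt_span_M ρ σ χ (TH116.TY.CK_span (K := AlgebraicClosure ℚ_[ℓ]) ρ σ χ ω
      halt hnondeg hω γ hsep' (hind _ hcard)) f' hf'
    let T : (Fin n → V) [⋀^Fin m × Fin 2]→ₗ[ℚ_[ℓ]] M →ₗ[ℚ_[ℓ]]
        (Fin n → V) [⋀^Fin d]→ₗ[ℚ_[ℓ]] M :=
      { toFun := fun g => g.domDomCongr ε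
        map_add' := fun _ _ => rfl
        map_smul' := fun _ _ => rfl }
    have h2 : T f' = f := by
      ext v
      change f (fun l => v (ε (ε.symm l))) = f v
      simp only [Equiv.apply_symm_apply]
    rw [← h2]
    refine (Submodule.map_span_le T _ _).2 ?_ (Submodule.mem_map_of_mem h1)
    rintro g ⟨B, y, hB, hy, hg⟩
    refine Submodule.subset_span ⟨m, ε, B, y, fun l => ?_, hy, fun v => hg (fun l => v (ε l))⟩
    obtain ⟨Δ, hΔ, h⟩ := hB l
    refine ⟨Δ, hΔ, fun s hs v => ?_⟩
    rw [h s hs v, pow_one]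
  · have h1 := TH116.TY.alt_odd ρ σ (TH116.TY.CK_odd (K := AlgebraicClosure ℚ_[ℓ]) ρ σ χ ω
      halt hnondeg hω γ hsep' (Fin d) (by rw [Fintype.card_fin]; exact ⟨m, hd⟩)
      (hind _ (Fintype.card_fin d))) f hf
    rw [h1]
    exact Submodule.zero_mem _

end Pool.Agent.Results.MP_021685_ag.ProductsWithAnyVariety
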