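import Mathlib
import Pool.Agent.TH118.SC.Final

/-!
# The Tate conjecture for abelian varieties with small finite inertia

Let `A` be an abelian variety of dimension `g` over a field `k` which is finitely generated over its
prime field, for instance a number field, `ℓ` a prime different from the characteristic, `V` the
rational Tate module over `ℚ_ℓ`, `ρ` the action of the Galois group `Γ` of `k`, `χ` the
cyclotomic character, `ω` the Weil pairing of a polarization, `K` the algebraic closure of `ℚ_ℓ`
and `X = K ⊗ V`.  A subspace of `X` is *strongly irreducible* (`SI`) if it is a minimal nonzero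
subspace stable under a subgroup of finite index.  By the theorems of Tate, Zarhin, Mori and
Faltings `X` is strongly irreducible if and only if all endomorphisms of `A` over the algebraic
closure of `k` are integers.

Theorem.  Suppose that `X` is strongly irreducible and that there is an element `γ` of the
group (in applications: of an inertia group) which is of finite order on `X`, not a scalar, with
an eigenvalue `a`, `a ^ 2 = χ(γ)` (in applications `a = 1`), such that

* all other eigenvalues of `γ` are simple;
* `c ^ 2 < 2 (2 g - c)`, `c` the codimension of the eigenspace for `a`

(`HasSmallInertia`), and that some diagonalizable element of the group, a Frobenius element, has two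
eigenvalues such that the quotient is not a root of unity.  Then, for all `n` and `m`, all Tate
classes in `H^{2m}(A ^ n, ℚ_ℓ(m))` are linear combinations of exterior products of Tate classes
of degree two.  By the theorems quoted above these are combinations of classes of divisors: the Tate
conjecture holds for all powers of `A`, in all codimensions.

The condition on Frobenius elements always holds for some Frobenius element, as otherwise the
connected component of the `ℓ`-adic monodromy group would act by scalars on `X`.

Example.  Let `A` be the Jacobian of a curve `C` of genus `g` over a number field with endomorphism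
ring `ℤ`, and let `v` be a place where `C` has a model with regular total space whose special
fibre has exactly one singular point, a unibranch point of type `x ^ p = y ^ q`, `p` and `q` coprime
and prime to the residue characteristic, with the invariant `δ = (p - 1) (q - 1) / 2`; `v` does not
divide `ℓ`.  Then a generator of tame inertia acts with the eigenvalue `1` with multiplicity
`2 g - 2 δ` and the simple eigenvalues `ξ ^ i η ^ j`, `0 < i < p`, `0 < j < q`, `ξ` and `η` of
orders `p` and `q`.  So the theorem applies if the genus `g - δ` of the normalization of the special
fibre is greater than `δ ^ 2`: ONE unibranch place is enough for the Tate conjecture in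
all codimensions for all powers of `A`.  For the cusp (`δ = 1`), and for all other `γ` with fixed
space of codimension two and two eigenvalues different from `1` and `-1`, the condition is `3 ≤ g`;
this includes the elements of order three (elliptic tails of the Kodaira types `IV` and `IV*`),
which are not covered by the theorem on unipotent rank one (`MP_af4e75_ag.UnipotentRankOne`).
Singularities like `E₆`, `E₈` and all `x ^ p = y ^ q` with `p`, `q` greater than two are not
covered by `MP_3703a7_ag.IsolatedEigenvalues`: there quotients of eigenvalues coincide, so that no
single component of an element of the Lie algebra can be isolated.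

The proof.  Let `𝔤` be the Lie algebra of the operators on `X` that kill all Tate tensors, and
`𝔤 = ⊕ 𝔤_ν` its decomposition under the conjugation by `γ`.  A space of operators which is normalized
by the group acts faithfully on each of its nonzero invariant subspaces of `X` (`SC.ann_space`,
by isotypic components).  By this the eigenspace `W = X_a` is spanned by the images `N(X_α)`, `α`
different from `a`, `N` in `𝔤_ν`, `ν = a / α`: the sum of these images and of all `X_α` is
stable under `𝔤`, and its orthogonal complement would be killed by all `𝔤_ν`, `ν ≠ 1`.
So for some `α` the dimension of `𝔤_ν` is at least `dim W / c`, which is greater than `c / 2`.  An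
element of `𝔤_ν` is given on the sum of the `X_β`, `β ≠ a, α`, by at most `c / 2` numbers, since it
is skew for `ω`.  Hence some nonzero `N` in `𝔤_ν` kills all these `X_β`, and this `N` has rank
two and square zero.  This implies that `𝔤` is the symplectic Lie algebra.
-/

namespace Pool.Agent.Results.MP_021685_ag.SmallCodimension

open Module TensorProduct Pool.Agent.H204R3.SP Pool.Agent.H204R3.GP Pool.Agent.W522.U
open Pool.Agent.TH118.CU Pool.Agent.TH118.SC

theorem result (ℓ : ℕ) [Fact ℓ.Prime]
    {V : Type} [AddCommGroup V] [Module ℚ_[ℓ] V] [FiniteDimensional ℚ_[ℓ] V]
    {Γ : Type} [Group Γ] (ρ : Representation ℚ_[ℓ] Γ V) (χ : Γ →* ℚ_[ℓ])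
    (ω : V →ₗ[ℚ_[ℓ]] V →ₗ[ℚ_[ℓ]] ℚ_[ℓ]) (halt : ∀ v, ω v v = 0)
    (hnondeg : ∀ u, (∀ v, ω v u = 0) → u = 0)
    (hω : ∀ s u v, ω (ρ s u) (ρ s v) = χ s * ω u v)
    (hirr : SI (bcr ρ (AlgebraicClosure ℚ_[ℓ]))
      (⊤ : Submodule (AlgebraicClosure ℚ_[ℓ]) (AlgebraicClosure ℚ_[ℓ] ⊗[ℚ_[ℓ]] V)))
    (hin : HasSmallInertia (bcr ρ (AlgebraicClosure ℚ_[ℓ])) (bcc χ (AlgebraicClosure ℚ_[ℓ])))
    (hfrob : HasFrobenius (bcr ρ (AlgebraicClosure ℚ_[ℓ]))) :
    TateGeneratedInDegreeTwo ρ χ := by
  refine generated_of_ext ρ χ (AlgebraicClosure ℚ_[ℓ]) fun m φ hφ => ?_
  refine small_pt (bcb (AlgebraicClosure ℚ_[ℓ]) ω) ?_ ?_ ?_ hirr hin hfrob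
    φ hφ
  · exact fun v => bcb_alt ω halt v
  · exact fun u hu => bcb_nondeg_left ω hnondeg (left_nondeg ω halt hnondeg) u hu
  · exact fun g u v => bcb_inv ρ χ ω hω g u v

end Pool.Agent.Results.MP_021685_ag.SmallCodimension
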